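import Mathlib

/-! MP_64e2fc_nt: additive bases of `ℤ/m` with bounded representation functions: definitions. -/

namespace Pool.Agent.Helper36.Ruzsa

/-- The number of ordered representations of `n` as a sum of two elements of `A`. -/
def sigma {m : ℕ} (A : Finset (ZMod m)) (n : ZMod m) : ℕ :=
  ((A ×ˢ A).filter (fun p => p.1 + p.2 = n)).card

/-- Ruzsa's number `R_m`: the least positive integer `r` for which some `A` satisfies
`1 ≤ σ_A(n) ≤ r` for all `n`. -/
noncomputable def ruzsa (m : ℕ) : ℕ :=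
  sInf {r : ℕ | 0 < r ∧ ∃ A : Finset (ZMod m), ∀ n, 1 ≤ sigma A n ∧ sigma A n ≤ r}

/-- `K_m`: the least size of a set `A` with `1 ≤ σ_A(n) ≤ R_m` for all `n`. -/
noncomputable def kmin (m : ℕ) : ℕ :=
  sInf {k : ℕ | ∃ A : Finset (ZMod m), (∀ n, 1 ≤ sigma A n ∧ sigma A n ≤ ruzsa m) ∧ A.card = k}

end Pool.Agent.Helper36.Ruzsa
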