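import Pool.Agent.Helper36.Ruzsa.Defs

/-! MP_64e2fc_nt: additive bases of `ℤ/m` with bounded representation functions. -/

namespace Pool.Agent.Helper36.Ruzsa

/-- The number of ordered representations of `n` as a difference of two elements of `A`. -/
def delta {m : ℕ} (A : Finset (ZMod m)) (n : ZMod m) : ℕ :=
  ((A ×ˢ A).filter (fun p => p.1 - p.2 = n)).card

variable {m : ℕ}

theorem sum_sigma [NeZero m] (A : Finset (ZMod m)) : ∑ n, sigma A n = A.card ^ 2 := by
  unfold sigma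
  rw [sq, ← Finset.card_product]
  exact (Finset.card_eq_sum_card_fiberwise (f := fun p : ZMod m × ZMod m => p.1 + p.2)
    (t := Finset.univ) (fun _ _ => Finset.mem_coe.mpr (Finset.mem_univ _))).symm

theorem sum_delta [NeZero m] (A : Finset (ZMod m)) : ∑ n, delta A n = A.card ^ 2 := by
  unfold delta
  rw [sq, ← Finset.card_product]
  exact (Finset.card_eq_sum_card_fiberwise (f := fun p : ZMod m × ZMod m => p.1 - p.2)
    (t := Finset.univ) (fun _ _ => Finset.mem_coe.mpr (Finset.mem_univ _))).symm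

theorem sum_sq_fiber {α β : Type*} [DecidableEq β] [Fintype β] (S : Finset α)
    (g : α → β) : ∑ n, ((S.filter (fun p => g p = n)).card) ^ 2 =
      ((S ×ˢ S).filter (fun x => g x.1 = g x.2)).card := by
  classical
  rw [Finset.card_eq_sum_card_fiberwise (f := fun x : α × α => g x.1) (t := Finset.univ)
    (fun _ _ => Finset.mem_coe.mpr (Finset.mem_univ _))]
  refine Finset.sum_congr rfl fun n _ => ?_
  rw [sq, ← Finset.card_product]
  congr 1
  ext x
  simp only [Finset.mem_product, Finset.mem_filter]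
  constructor
  · rintro ⟨⟨h1, h2⟩, h3, h4⟩
    exact ⟨⟨⟨h1, h3⟩, h2.trans h4.symm⟩, h2⟩
  · rintro ⟨⟨⟨h1, h2⟩, h3⟩, h4⟩
    exact ⟨⟨h1, h4⟩, h2, h3.symm.trans h4⟩

theorem sum_sigma_sq [NeZero m] (A : Finset (ZMod m)) :
    ∑ n, sigma A n ^ 2 = ∑ n, delta A n ^ 2 := by
  unfold sigma delta
  rw [sum_sq_fiber (A ×ˢ A) (fun p : ZMod m × ZMod m => p.1 + p.2),
    sum_sq_fiber (A ×ˢ A) (fun p : ZMod m × ZMod m => p.1 - p.2)]
  -- `((a, b), (c, d)) ↦ ((a, d), (c, b))`
  refine Finset.card_bij' (fun x _ => ((x.1.1, x.2.2), (x.2.1, x.1.2)))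
    (fun x _ => ((x.1.1, x.2.2), (x.2.1, x.1.2))) ?_ ?_ ?_ ?_
  · rintro ⟨⟨a, b⟩, c, d⟩ h
    simp only [Finset.mem_filter, Finset.mem_product] at h ⊢
    obtain ⟨⟨⟨ha, hb⟩, hc, hd⟩, h⟩ := h
    exact ⟨⟨⟨ha, hd⟩, hc, hb⟩, by linear_combination h⟩
  · rintro ⟨⟨a, b⟩, c, d⟩ h
    simp only [Finset.mem_filter, Finset.mem_product] at h ⊢
    obtain ⟨⟨⟨ha, hb⟩, hc, hd⟩, h⟩ := h
    exact ⟨⟨⟨ha, hd⟩, hc, hb⟩, by linear_combination h⟩
  · rintro ⟨⟨a, b⟩, c, d⟩ _; rfl
  · rintro ⟨⟨a, b⟩, c, d⟩ _; rfl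

theorem delta_zero (A : Finset (ZMod m)) : delta A 0 = A.card := by
  unfold delta
  refine Finset.card_bij' (fun p _ => p.1) (fun a _ => (a, a)) ?_ ?_ ?_ ?_
  · rintro ⟨a, b⟩ h
    simp only [Finset.mem_filter, Finset.mem_product] at h
    exact h.1.1
  · intro a ha
    simp [ha]
  · rintro ⟨a, b⟩ h
    simp only [Finset.mem_filter, Finset.mem_product] at h
    rw [sub_eq_zero.mp h.2]
  · intro a _; rfl

theorem even_sigma (A : Finset (ZMod m)) (n : ZMod m) (h : ∀ a ∈ A, a + a ≠ n) :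
    Even (sigma A n) := by
  unfold sigma
  have h1 : ∑ _p ∈ (A ×ˢ A).filter (fun p => p.1 + p.2 = n), (1 : ZMod 2) = 0 := by
    refine Finset.sum_involution (fun p _ => (p.2, p.1)) ?_ ?_ ?_ ?_
    · intro p _; decide
    · rintro ⟨a, b⟩ hp _ heq
      simp only [Finset.mem_filter, Finset.mem_product] at hp
      simp only [Prod.mk.injEq] at heq
      apply h a hp.1.1
      rw [← hp.2, heq.1]
    · rintro ⟨a, b⟩ hp
      simp only [Finset.mem_filter, Finset.mem_product] at hp ⊢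
      exact ⟨⟨hp.1.2, hp.1.1⟩, by rw [add_comm]; exact hp.2⟩
    · rintro ⟨a, b⟩ _; rfl
  rw [Finset.sum_const, nsmul_eq_mul, mul_one] at h1
  exact (ZMod.natCast_eq_zero_iff_even).mp h1

/-- The main inequality. -/
theorem main_ineq [NeZero m] (A : Finset (ZMod m)) (R : ℕ)
    (hA : ∀ n, 1 ≤ sigma A n ∧ sigma A n ≤ R) :
    (2 * (2 * (R / 2 : ℕ) : ℤ) - 6) * m + 6 ≤
      ((2 * (R / 2 : ℕ) : ℤ) - 4) * (A.card : ℤ) ^ 2 + ((2 * (R / 2 : ℕ) : ℤ) + 4) * A.card := by
  classical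
  set r : ℤ := 2 * ((R / 2 : ℕ) : ℤ) with hr
  set k : ℤ := (A.card : ℤ) with hk
  have hr0 : 0 ≤ r := by positivity
  have hRr : (R : ℤ) ≤ r + 1 := by
    have : R ≤ 2 * (R / 2) + 1 := by omega
    rw [hr]; exact_mod_cast this
  have hcard : (Finset.univ : Finset (ZMod m)).card = m := by rw [Finset.card_univ, ZMod.card]
  -- lower bound for the energy
  have e1 : ∑ n, (delta A n : ℤ) = k ^ 2 := by
    have := sum_delta A
    rw [hk]; exact_mod_cast this
  have e2 : ∑ n, (sigma A n : ℤ) = k ^ 2 := by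
    have := sum_sigma A
    rw [hk]; exact_mod_cast this
  have e3 : ∑ n, (sigma A n : ℤ) ^ 2 = ∑ n, (delta A n : ℤ) ^ 2 := by
    have := sum_sigma_sq A
    exact_mod_cast this
  have l1 : (k - 2) * (k - 3) ≤ ∑ n, ((delta A n : ℤ) - 2) * ((delta A n : ℤ) - 3) := by
    have h1 : ((delta A 0 : ℤ) - 2) * ((delta A 0 : ℤ) - 3) ≤
        ∑ n, ((delta A n : ℤ) - 2) * ((delta A n : ℤ) - 3) := by
      refine Finset.single_le_sum (f := fun n => ((delta A n : ℤ) - 2) * ((delta A n : ℤ) - 3))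
        (fun n _ => ?_) (Finset.mem_univ 0)
      rcases le_or_gt (delta A n : ℤ) 2 with h | h
      · nlinarith
      · have h3 : (3 : ℤ) ≤ delta A n := by omega
        nlinarith
    rw [delta_zero] at h1
    exact h1
  have l2 : ∑ n, ((delta A n : ℤ) - 2) * ((delta A n : ℤ) - 3) =
      ∑ n, (delta A n : ℤ) ^ 2 - 5 * k ^ 2 + 6 * m := by
    have : ∀ n, ((delta A n : ℤ) - 2) * ((delta A n : ℤ) - 3) =
        (delta A n : ℤ) ^ 2 - 5 * (delta A n : ℤ) + 6 := fun n => by ring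
    simp only [this]
    rw [Finset.sum_add_distrib, Finset.sum_sub_distrib, ← Finset.mul_sum, e1, Finset.sum_const,
      hcard, nsmul_eq_mul]
    ring
  -- upper bound for the energy
  have u1 : ∑ n, ((sigma A n : ℤ) - 2) * ((sigma A n : ℤ) - r) ≤
      ∑ n : ZMod m, if n ∈ A.image (fun a => a + a) then (r - 1) else 0 := by
    refine Finset.sum_le_sum fun n _ => ?_
    obtain ⟨h1, h2⟩ := hA n
    have h1' : (1 : ℤ) ≤ sigma A n := by exact_mod_cast h1
    have h2' : (sigma A n : ℤ) ≤ r + 1 := by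
      have : (sigma A n : ℤ) ≤ R := by exact_mod_cast h2
      linarith
    split_ifs with h
    · -- convexity on `[1, r+1]`
      nlinarith
    · have hev : Even (sigma A n) := by
        apply even_sigma
        intro a ha heq
        exact h (Finset.mem_image.mpr ⟨a, ha, heq⟩)
      obtain ⟨c, hc⟩ := hev
      have h3 : (2 : ℤ) ≤ sigma A n := by
        have : 2 ≤ sigma A n := by omega
        exact_mod_cast this
      have h4 : (sigma A n : ℤ) ≤ r := by
        have : sigma A n ≤ 2 * (R / 2) := by omega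
        rw [hr]; exact_mod_cast this
      nlinarith
  have u2 : ∑ n : ZMod m, (if n ∈ A.image (fun a => a + a) then (r - 1) else 0) =
      (A.image (fun a => a + a)).card * (r - 1) := by
    rw [← Finset.sum_filter, Finset.sum_const, nsmul_eq_mul]
    congr 2
    rw [Finset.filter_mem_eq_inter, Finset.univ_inter]
  have u3 : ((A.image (fun a => a + a)).card : ℤ) ≤ k := by
    rw [hk]; exact_mod_cast Finset.card_image_le
  have u4 : ∑ n, ((sigma A n : ℤ) - 2) * ((sigma A n : ℤ) - r) =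
      ∑ n, (sigma A n : ℤ) ^ 2 - (r + 2) * k ^ 2 + 2 * r * m := by
    have : ∀ n, ((sigma A n : ℤ) - 2) * ((sigma A n : ℤ) - r) =
        (sigma A n : ℤ) ^ 2 - (r + 2) * (sigma A n : ℤ) + 2 * r := fun n => by ring
    simp only [this]
    rw [Finset.sum_add_distrib, Finset.sum_sub_distrib, ← Finset.mul_sum, e2, Finset.sum_const,
      hcard, nsmul_eq_mul]
    ring
  -- `r - 1` may be negative only if `R ≤ 1`
  rcases le_or_gt 1 r with h1r | h1r
  · have u5 : ((A.image (fun a => a + a)).card : ℤ) * (r - 1) ≤ k * (r - 1) :=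
      mul_le_mul_of_nonneg_right u3 (by linarith)
    nlinarith
  · -- then `r = 0`, all `sigma` are one
    have hr00 : r = 0 := by omega
    have hall : ∀ n : ZMod m, n ∈ A.image (fun a => a + a) := by
      intro n
      by_contra h
      have hev : Even (sigma A n) := by
        apply even_sigma
        intro a ha heq
        exact h (Finset.mem_image.mpr ⟨a, ha, heq⟩)
      obtain ⟨c, hc⟩ := hev
      obtain ⟨h1, h2⟩ := hA n
      have h3 : R / 2 = 0 := by
        rw [hr] at hr00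
        have : ((R / 2 : ℕ) : ℤ) = 0 := by linarith
        exact_mod_cast this
      omega
    have h2 : (m : ℤ) ≤ k := by
      have h3 : (A.image (fun a => a + a)) = Finset.univ := Finset.eq_univ_iff_forall.mpr hall
      rw [h3, hcard] at u3
      exact u3
    have h4 : k ^ 2 = m := by
      have h5 : ∀ n, (sigma A n : ℤ) = 1 := by
        intro n
        obtain ⟨h1, h2⟩ := hA n
        have h3 : R / 2 = 0 := by
          rw [hr] at hr00
          have : ((R / 2 : ℕ) : ℤ) = 0 := by linarith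
          exact_mod_cast this
        have : sigma A n = 1 := by omega
        exact_mod_cast this
      rw [← e2]
      simp only [h5]
      rw [Finset.sum_const, hcard, nsmul_eq_mul, mul_one]
    have hm1 : (1 : ℤ) ≤ m := by
      have := NeZero.one_le (n := m)
      exact_mod_cast this
    have hk1 : k = 1 := by nlinarith
    rw [hr00, hk1] 
    have : (m : ℤ) = 1 := by rw [← h4, hk1]; norm_num
    rw [this]; norm_num

theorem exists_set (m : ℕ) [NeZero m] : ∃ A : Finset (ZMod m),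
    (∀ n, 1 ≤ sigma A n ∧ sigma A n ≤ ruzsa m) ∧ A.card = kmin m := by
  classical
  have h1 : {r : ℕ | 0 < r ∧ ∃ A : Finset (ZMod m), ∀ n, 1 ≤ sigma A n ∧ sigma A n ≤ r}.Nonempty := by
    refine ⟨((Finset.univ : Finset (ZMod m)) ×ˢ (Finset.univ : Finset (ZMod m))).card, ?_,
      Finset.univ, fun n => ⟨?_, ?_⟩⟩
    · rw [Finset.card_pos]; exact ⟨(0, 0), by simp⟩
    · unfold sigma
      rw [Nat.one_le_iff_ne_zero, ← Nat.pos_iff_ne_zero, Finset.card_pos]
      exact ⟨(n, 0), by simp⟩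
    · exact Finset.card_filter_le _ _
  have h2 := Nat.sInf_mem h1
  obtain ⟨-, A, hA⟩ := h2
  have h3 : {k : ℕ | ∃ A : Finset (ZMod m),
      (∀ n, 1 ≤ sigma A n ∧ sigma A n ≤ ruzsa m) ∧ A.card = k}.Nonempty := ⟨A.card, A, hA, rfl⟩
  exact Nat.sInf_mem h3

theorem ruzsa_ge (m : ℕ) (hm : 74 ≤ m) : 6 ≤ ruzsa m := by
  have : NeZero m := ⟨by omega⟩
  obtain ⟨A, hA, -⟩ := exists_set m
  by_contra hcon
  push Not at hcon
  have h1 := main_ineq A (ruzsa m) hA
  set k : ℤ := (A.card : ℤ) with hk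
  have hk0 : 0 ≤ k := by positivity
  have hm' : (74 : ℤ) ≤ m := by exact_mod_cast hm
  have hcard : (Finset.univ : Finset (ZMod m)).card = m := by rw [Finset.card_univ, ZMod.card]
  -- `k² ≤ R m`
  have h2 : k ^ 2 ≤ ruzsa m * m := by
    have h3 : A.card ^ 2 ≤ ruzsa m * m := by
      rw [← sum_sigma A]
      calc ∑ n, sigma A n ≤ ∑ _n : ZMod m, ruzsa m := Finset.sum_le_sum fun n _ => (hA n).2
        _ = ruzsa m * m := by rw [Finset.sum_const, hcard, smul_eq_mul, mul_comm]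
    rw [hk]; exact_mod_cast h3
  have hR : ruzsa m = 0 ∨ ruzsa m = 1 ∨ ruzsa m = 2 ∨ ruzsa m = 3 ∨ ruzsa m = 4 ∨ ruzsa m = 5 := by
    omega
  -- `2 m ≤ k² + k`
  have h4 : 2 * (m : ℤ) ≤ k ^ 2 + k := by
    classical
    have h5 : ∀ n : ZMod m, (2 : ℤ) ≤ (sigma A n : ℤ) +
        if n ∈ A.image (fun a => a + a) then 1 else 0 := by
      intro n
      obtain ⟨h6, -⟩ := hA n
      split_ifs with h
      · have : (1 : ℤ) ≤ sigma A n := by exact_mod_cast h6
        linarith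
      · have hev : Even (sigma A n) := by
          apply even_sigma
          intro a ha heq
          exact h (Finset.mem_image.mpr ⟨a, ha, heq⟩)
        obtain ⟨c, hc⟩ := hev
        have : 2 ≤ sigma A n := by omega
        have h7 : (2 : ℤ) ≤ sigma A n := by exact_mod_cast this
        linarith
    have h8 := Finset.sum_le_sum (s := Finset.univ) fun (n : ZMod m) _ => h5 n
    rw [Finset.sum_const, hcard, nsmul_eq_mul, Finset.sum_add_distrib, Finset.sum_boole] at h8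
    have h9 : ∑ n : ZMod m, (sigma A n : ℤ) = k ^ 2 := by
      have := sum_sigma A
      rw [hk]; exact_mod_cast this
    rw [h9] at h8
    have h10 : (((Finset.univ : Finset (ZMod m)).filter
        (fun n => n ∈ A.image (fun a => a + a))).card : ℤ) ≤ k := by
      rw [Finset.filter_mem_eq_inter, Finset.univ_inter, hk]
      exact_mod_cast Finset.card_image_le
    linarith
  rcases hR with h | h | h | h | h | h <;> rw [h] at h1 h2 <;> norm_num at h1 h2
  · nlinarith
  · nlinarith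
  · have h5 : (m : ℤ) + 3 ≤ 4 * k := by nlinarith
    nlinarith
  · have h5 : (m : ℤ) + 3 ≤ 4 * k := by nlinarith
    nlinarith
  · have h5 : (m : ℤ) + 3 ≤ 4 * k := by nlinarith
    nlinarith
  · have h5 : (m : ℤ) + 3 ≤ 4 * k := by nlinarith
    nlinarith

/-- The bound for `K_m` in terms of `R_m`, without error terms. -/
theorem kmin_ineq (m : ℕ) (hm : 1 ≤ m) (hR : 6 ≤ ruzsa m) :
    (2 + 2 / (2 * ((ruzsa m / 2 : ℕ) : ℝ) - 4)) * m ≤ (kmin m : ℝ) ^ 2 + 5 * kmin m := by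
  have : NeZero m := ⟨by omega⟩
  obtain ⟨A, hA, hk⟩ := exists_set m
  have h1 := main_ineq A (ruzsa m) hA
  rw [hk] at h1
  set r : ℝ := 2 * ((ruzsa m / 2 : ℕ) : ℝ) with hr
  have hr6 : 6 ≤ r := by
    have : 3 ≤ ruzsa m / 2 := by omega
    have : (3 : ℝ) ≤ ((ruzsa m / 2 : ℕ) : ℝ) := by exact_mod_cast this
    rw [hr]; linarith
  have h2 : (2 * r - 6) * m + 6 ≤ (r - 4) * (kmin m : ℝ) ^ 2 + (r + 4) * kmin m := by
    have h1' := (Int.cast_le (R := ℝ)).mpr h1
    simp only [Int.cast_add, Int.cast_mul, Int.cast_sub, Int.cast_pow, Int.cast_natCast,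
      Int.cast_ofNat] at h1'
    rw [hr]; exact h1'
  have hk0 : (0 : ℝ) ≤ kmin m := Nat.cast_nonneg _
  have h3 : (r + 4) * (kmin m : ℝ) ≤ 5 * (r - 4) * kmin m := by nlinarith
  have h4 : 0 < r - 4 := by linarith
  have h5 : (2 + 2 / (r - 4)) * (r - 4) = 2 * r - 6 := by
    field_simp; ring
  have h6 : (r - 4) * ((2 + 2 / (r - 4)) * m) ≤ (r - 4) * ((kmin m : ℝ) ^ 2 + 5 * kmin m) := by
    calc (r - 4) * ((2 + 2 / (r - 4)) * m) = ((2 + 2 / (r - 4)) * (r - 4)) * m := by ring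
      _ = (2 * r - 6) * m := by rw [h5]
      _ ≤ (r - 4) * (kmin m : ℝ) ^ 2 + (r + 4) * kmin m := by linarith
      _ ≤ _ := by nlinarith
  exact le_of_mul_le_mul_left h6 h4

/-- Final statement. -/
theorem main (ε : ℝ) (hε : 0 < ε) : ∃ m₀ : ℕ, ∀ m ≥ m₀, 6 ≤ ruzsa m ∧
    (1 - ε) * √((2 + 2 / (2 * ((ruzsa m / 2 : ℕ) : ℝ) - 4)) * m) ≤ kmin m := by
  obtain ⟨m₁, hm₁⟩ := exists_nat_gt (100 / ε ^ 2)
  refine ⟨m₁ + 74, fun m hm => ?_⟩
  have hR := ruzsa_ge m (by omega)
  refine ⟨hR, ?_⟩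
  rcases le_or_gt 1 ε with h1 | h1
  · have h2 : (1 - ε) * √((2 + 2 / (2 * ((ruzsa m / 2 : ℕ) : ℝ) - 4)) * m) ≤ 0 :=
      mul_nonpos_of_nonpos_of_nonneg (by linarith) (Real.sqrt_nonneg _)
    exact h2.trans (Nat.cast_nonneg _)
  have h3 := kmin_ineq m (by omega) hR
  set T : ℝ := (2 + 2 / (2 * ((ruzsa m / 2 : ℕ) : ℝ) - 4)) * m with hT
  set k : ℝ := (kmin m : ℝ) with hk
  have hk0 : 0 ≤ k := Nat.cast_nonneg _
  have hmr : 100 / ε ^ 2 < (m : ℝ) := by
    have : (m₁ : ℝ) ≤ m := by exact_mod_cast (by omega : m₁ ≤ m)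
    linarith
  have hT1 : (m : ℝ) ≤ T := by
    have h4 : (3 : ℝ) ≤ ((ruzsa m / 2 : ℕ) : ℝ) := by
      exact_mod_cast (by omega : 3 ≤ ruzsa m / 2)
    have h5 : 0 ≤ 2 / (2 * ((ruzsa m / 2 : ℕ) : ℝ) - 4) := by
      apply div_nonneg (by norm_num); linarith
    have h6 : (0 : ℝ) ≤ m := Nat.cast_nonneg _
    rw [hT]; nlinarith
  have hTε : 100 < ε ^ 2 * T := by
    have : 100 < ε ^ 2 * m := by
      rw [div_lt_iff₀ (by positivity)] at hmr
      linarith
    have h7 : ε ^ 2 * m ≤ ε ^ 2 * T := mul_le_mul_of_nonneg_left hT1 (by positivity)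
    linarith
  -- if `k < (1-ε) √T` then `k² + 5k < T`
  by_contra hcon
  push Not at hcon
  set S := √T with hS
  have hS0 : 0 ≤ S := Real.sqrt_nonneg _
  have hST : S ^ 2 = T := Real.sq_sqrt (by nlinarith [sq_nonneg ε])
  have hS10 : 10 < ε * S := by
    have h8 : (10 : ℝ) ^ 2 < (ε * S) ^ 2 := by
      rw [mul_pow, hST]; linarith
    exact lt_of_pow_lt_pow_left₀ 2 (by positivity) h8
  have h9 : k ^ 2 ≤ ((1 - ε) * S) ^ 2 := by
    apply pow_le_pow_left₀ hk0 hcon.le
  have h10 : k ≤ S := by nlinarith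
  have h11 : ((1 - ε) * S) ^ 2 = S ^ 2 - (2 * ε - ε ^ 2) * S ^ 2 := by ring
  have h12 : ε * S ^ 2 ≤ (2 * ε - ε ^ 2) * S ^ 2 := by nlinarith [sq_nonneg S]
  have h13 : 10 * S ≤ ε * S ^ 2 := by nlinarith
  have hSpos : 0 < S := by
    by_contra h
    have : S = 0 := le_antisymm (not_lt.mp h) hS0
    rw [this] at hS10
    linarith
  nlinarith

end Pool.Agent.Helper36.Ruzsa
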